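import Mathlib
import Pool.Agent.H25.Dis

open PowerSeries Finset Pool.Agent.H25.Dis

namespace Pool.Agent.Results.MP_53b42b_nt.Unb

/-- The series `1 / (1 - x ^ d) = 1 + x ^ d + x ^ (2 d) + ⋯`. -/
noncomputable def geom (d : ℕ) : ℤ⟦X⟧ := PowerSeries.mk fun j => if d ∣ j then 1 else 0

/-- `S k m n`: the coefficient of `x ^ n` in `(1 - x) ^ (-m) ∏ i, (1 - x ^ k ^ i) ^ (-m (k - 1))`;
the factors with `i > n` are `1` modulo `x ^ (n + 1)` and are left out. -/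
noncomputable def S (k m n : ℕ) : ℤ :=
  coeff n (geom 1 ^ m * ∏ i ∈ range (n + 1), geom (k ^ i) ^ (m * (k - 1)))

noncomputable def H (m N : ℕ) : ℤ⟦X⟧ := geom 1 ^ m * ∏ i ∈ range N, geom (4 ^ i) ^ (m * 3)

noncomputable def R (m : ℕ) : ℤ⟦X⟧ := ((1 - X ^ 4) * y ^ 4) ^ m

lemma ex_geom (d : ℕ) : ex (geom d) = geom (2 * d) := by
  ext j
  rw [coeff_expand, geom, geom, coeff_mk, coeff_mk]
  by_cases h : 2 ∣ j
  · simp [h, Nat.dvd_div_iff_mul_dvd h]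
  · rw [if_neg h, if_neg fun h' => h (dvd_of_mul_right_dvd h')]

lemma geom_one : geom 1 = y := by ext; simp [geom, y]

lemma H_succ (m N : ℕ) : H m (N + 1) = R m * ex (ex (H m N)) := by
  have h : ex (ex (geom 1)) * (1 - X ^ 4) = 1 := by
    simpa [geom_one, ← pow_mul] using congrArg ex hY
  have h4 := congrArg (· ^ m) h
  simp only [H, R, map_mul, map_pow, map_prod, ex_geom, ← mul_assoc, ← pow_mul, mul_pow, one_pow,
    ← geom_one, show 2 * 2 = 4 from rfl, ← pow_succ'] at h4 ⊢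
  rw [prod_range_succ', pow_zero]
  generalize ∏ i ∈ range N, geom (4 ^ (i + 1)) ^ (m * 3) = P
  linear_combination -geom 1 ^ (4 * m) * P * h4

lemma H_stab (m n a : ℕ) : coeff n (H m (n + 1 + a)) = coeff n (H m (n + 1)) := by
  induction a with
  | zero => rfl
  | succ a ih =>
    have h0 : n < 4 ^ (n + 1 + a) := by
      have : n + 1 + a < 4 ^ (n + 1 + a) := Nat.lt_pow_self (by norm_num)
      omega
    have h : X ^ 4 ^ (n + 1 + a) ∣ geom (4 ^ (n + 1 + a)) ^ (m * 3) - 1 := by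
      refine Dvd.dvd.trans (X_pow_dvd_iff.2 fun j hj => ?_) (sub_one_dvd_pow_sub_one _ _)
      rw [map_sub, geom, coeff_mk, coeff_one]
      rcases j.eq_zero_or_pos with rfl | h1
      · simp
      · rw [if_neg fun h => by have := Nat.le_of_dvd h1 h; omega, if_neg h1.ne', sub_zero]
    have := X_pow_dvd_iff.1 (h.mul_left (H m (n + 1 + a))) n h0
    rw [mul_sub, map_sub, sub_eq_zero, mul_one, ih] at this
    rw [← this, ← add_assoc, H, prod_range_succ, ← mul_assoc, H]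

def Good (m : ℕ) (A : ℤ⟦X⟧) : Prop :=
  ∃ N r, ∀ M t, coeff (4 ^ N * t + r) (H m (M + N)) = coeff t (A * H m M)

lemma good_step {m b c : ℕ} {A : ℤ⟦X⟧} (hb : b < 2) (hc : c < 2) (h : Good m A) :
    Good m (U c (U b (A * R m))) := by
  obtain ⟨N, r, h⟩ := h
  refine ⟨N + 1, 4 ^ N * (2 * c + b) + r, fun M t => ?_⟩
  rw [← U_mul hc, ← U_mul hb, coeff_U, coeff_U, mul_assoc A, ← H_succ, ← h]
  congr 2 <;> ring

def w : List ℤ := [0, -8, 28, -56, 68, -48, 16]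
def w2 : List ℤ := ml w w
def r0 (p : ℤ) : List ℤ :=
  ad (ad [1] (w.map ((4 * p + 3) * ·))) (ad (w2.map ((10 * p + 3) * ·)) (ml w2 w))
def g1 : List ℤ := ad (w.map (8 * ·)) (w2.map (4 * ·))
def g2 : List ℤ := w2.map (8 * ·)
def g3 : List ℤ := (ml w2 w).map (2 * ·)

lemma pow_w (n : ℕ) : ∃ Q ∈ Sp fun k e => k ≤ 2 * e, (1 + ev w) ^ n = 1 + n * ev w +
    n.choose 2 * ev w ^ 2 + n.choose 3 * ev w ^ 3 + ev w ^ 4 * Q ∧
    (1 + ev w) ^ n ∈ Sp fun k e => k ≤ 2 * e := by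
  have h1 : (1 : ℤ⟦X⟧) ∈ Sp fun k e => k ≤ 2 * e := by
    simpa using gen (φ := fun k e => k ≤ 2 * e) (k := 0) (e := 0) le_rfl
  have h2 : 1 + ev w ∈ Sp fun k e => k ≤ 2 * e := add_mem h1 (ev_mem _ (by decide +kernel))
  induction n with
  | zero => exact ⟨0, zero_mem _, by simp, by simpa using h1⟩
  | succ n ih =>
    obtain ⟨Q, h3, h4, h5⟩ := ih
    refine ⟨Q * (1 + ev w) + C (n.choose 3 : ℤ) * 1, add_mem (mul h3 h2 (by omega))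
      (int_mul _ h1), ?_, pow_succ (1 + ev w) n ▸ mul h5 h2 (by omega)⟩
    rw [pow_succ, h4, Nat.choose_succ_succ' n 1, Nat.choose_succ_succ' n 2]
    simp; ring

lemma R_eq {m : ℕ} (hm : m % 8 = 6) : ∃ p : Fin 2, ∃ q z s : ℤ,
    ∃ Q ∈ Sp fun k e => 1 ≤ k ∧ 8 ≤ e ∧ k ≤ 2 * e, R m = ev (r0 p) + C q * ev g1 + C z * ev g2 +
      C s * ev g3 + Q ∧ R m ∈ Sp fun k e => k ≤ 2 * e := by
  obtain ⟨q, p, rfl⟩ : ∃ q, ∃ p : Fin 2, m = 2 * (8 * q + 4 * p + 2 + 1) :=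
    ⟨m / 16, ⟨m / 8 % 2, by omega⟩, by simp only; omega⟩
  have h : ((1 - X ^ 4) * y ^ 4) ^ 2 = 1 + ev w := by
    have : (1 - X ^ 4) * y ^ 4 = -1 + 4 * y - 6 * y ^ 2 + 4 * y ^ 3 := by
      linear_combination ((y - 1) ^ 3 + (y - 1) ^ 2 * (X * y) + (y - 1) * (X * y) ^ 2 +
        (X * y) ^ 3) * y_mul
    rw [this]; simp [ev, w]; ring
  obtain ⟨Q, h1, h2, h3⟩ := pow_w (8 * q + 4 * p + 2 + 1)
  have c2 : (8 * q + 4 * p + 2 + 1).choose 2 = (8 * q + 4 * p + 3) * (4 * q + 2 * p + 1) := by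
    rw [Nat.choose_two_right]
    exact Nat.div_eq_of_eq_mul_left two_pos (by rw [Nat.add_sub_cancel]; ring)
  obtain ⟨s, hs⟩ : Odd ((8 * q + 4 * p + 2 + 1).choose 3) := by
    refine (Nat.odd_mul.1 (?_ : Odd (_ * 3))).1
    rw [Nat.choose_succ_right_eq, c2]
    exact (Odd.mul ⟨4 * q + 2 * p + 1, by ring⟩ ⟨2 * q + p, by ring⟩).mul ⟨4 * q + 2 * p, by omega⟩
  refine ⟨p, q, 4 * q ^ 2 + 2 * q + 4 * p * q + p, s, ev w ^ 4 * Q, mul (φ := fun k e => 1 ≤ k ∧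
    8 ≤ e ∧ k ≤ 2 * e) ?_ h1 (by omega), ?_, by rwa [R, pow_mul, h]⟩
  · rw [show ev w ^ 4 = ev (ml w2 w2) by simp only [w2, ev_ml]; ring]
    exact ev_mem _ (by decide +kernel)
  · rw [R, pow_mul, h, h2, c2, hs]
    fin_cases p <;> simp [r0, g1, g2, g3, w2, ev_ad, ev_ml, ev_map, ev] <;> ring

def ok (ψ : ℕ → ℕ → Prop) [DecidableRel ψ] (p : ℤ) (l t : List ℤ) (b c : ℕ) : Bool :=
  chk ψ 0 (ad (ub c (ub b (ml l (r0 p)))) (t.map (-1 * ·))) && chk ψ 0 (ub c (ub b (ml l g1))) &&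
    chk ψ 0 (ub c (ub b (ml l g2))) && chk ψ 0 (ub c (ub b (ml l g3)))

lemma Uc (b : ℕ) (a : ℤ) (B : ℤ⟦X⟧) : U b (C a * B) = C a * U b B := by
  simpa using map_zsmul (U b) a B

lemma step {ψ χ : ℕ → ℕ → Prop} [DecidableRel ψ] {p q z s : ℤ} {l t : List ℤ} {b c d : ℕ}
    {A T Q : ℤ⟦X⟧} (hb : b < 2) (hc : c < 2) (h : ok ψ p l t b c)
    (hψ : ∀ k e, ψ k e → χ k (d + e))
    (hT : T = ev (r0 p) + C q * ev g1 + C z * ev g2 + C s * ev g3 + Q)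
    (h1 : U c (U b ((A - 2 ^ d * ev l) * T)) ∈ Sp χ) (h2 : U c (U b (2 ^ d * ev l * Q)) ∈ Sp χ) :
    U c (U b (A * T)) - 2 ^ d * ev t ∈ Sp χ := by
  simp only [ok, Bool.and_eq_true] at h
  obtain ⟨⟨⟨h3, h4⟩, h5⟩, h6⟩ := h
  have h7 := mul (χ := χ) (gen (φ := fun k e => k = 0 ∧ e = d) ⟨rfl, rfl⟩) (add_mem (add_mem
    (add_mem (ev_mem _ h3) (int_mul q (ev_mem _ h4))) (int_mul z (ev_mem _ h5)))
    (int_mul s (ev_mem _ h6))) (by rintro _ _ k e ⟨rfl, rfl⟩ h; simpa using hψ k e h)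
  have e : A * T = (A - 2 ^ d * ev l) * T + 2 ^ d * ev l * Q + C (2 ^ d) * (ev l * ev (r0 p) +
      C q * (ev l * ev g1) + C z * (ev l * ev g2) + C s * (ev l * ev g3)) := by
    rw [hT]; simp; ring
  simp only [ev_ad, ev_map, ev_ub hb, ev_ub hc, ev_ml] at h7
  rw [e]
  simp only [map_add, Uc]
  convert add_mem (add_mem h1 h2) h7 using 1
  simp; ring

abbrev Ψ (d k e : ℕ) : Prop := (k = 1 ∧ d ≤ e) ∨ (2 ≤ k ∧ k + 2 * d ≤ 2 * e)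

abbrev Ρ (k e : ℕ) : Prop := 1 ≤ k ∧ 7 ≤ e ∧ (9 ≤ k → 8 ≤ e) ∧ k ≤ 2 * e

lemma base {m : ℕ} (hm : m % 8 = 6) : ∃ A, Good m A ∧ A - 2 ^ 6 * y ^ 2 ∈ Sp (Ψ 6) := by
  obtain ⟨p, q, z, s, Q, h1, h2, h3⟩ := R_eq hm
  have key (ψ : ℕ → ℕ → Prop) [DecidableRel ψ] (hψ : ∀ k e, (1 ≤ k ∧ 7 ≤ e ∧ (3 ≤ k → 8 ≤ e) ∧
      2 * k ≤ e + 1) → ψ k e) (l t b A) (hb : b < 2) (h : ok ψ p l t b 0)
      (hl : chk (fun k e => k ≤ 2 * e) 0 l) (hA : Good m A ∧ A - ev l ∈ Sp Ρ) :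
      Good m (U 0 (U b (A * R m))) ∧ U 0 (U b (A * R m)) - ev t ∈ Sp ψ := by
    have u (B) (hB : B ∈ Sp Ρ) : U 0 (U b B) ∈ Sp ψ := mono (U_mem two_pos (U_mem (ψ := fun k e =>
      1 ≤ k ∧ 7 ≤ e ∧ (5 ≤ k → 8 ≤ e) ∧ k ≤ e) hb hB (by omega)) (by omega)) hψ
    refine ⟨good_step hb two_pos hA.1, ?_⟩
    simpa using step (d := 0) (χ := ψ) hb two_pos h (by simp) h2
      (u _ (mul (by simpa using hA.2) h3 (by omega)))
      (u _ (mul (by simpa using ev_mem _ hl) h1 (by omega)))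
  have e : ev [0, 0, 64] = 2 ^ 6 * y ^ 2 := by simp [ev]; ring
  have g : Good m 1 ∧ 1 - ev [1] ∈ Sp Ρ := ⟨⟨0, 0, by simp⟩, by simp [ev]⟩
  rw [← e]
  fin_cases p
  · exact ⟨_, key _ (by omega) [1, 24, -24] _ 1 _ one_lt_two (by decide +kernel) (by decide)
      (key _ (by omega) [1, -8, 8] _ 0 _ two_pos (by decide +kernel) (by decide)
        (key _ (by omega) _ _ 0 _ two_pos (by decide +kernel) (by decide) g))⟩
  · exact ⟨_, key _ (by omega) [1, 56, -56] _ 1 _ one_lt_two (by decide +kernel) (by decide)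
      (key _ (by omega) _ _ 0 _ two_pos (by decide +kernel) (by decide) g)⟩

lemma dec {d : ℕ} {B : ℤ⟦X⟧} (h : B ∈ Sp (Ψ d)) : ∃ a c : ℤ, B - 2 ^ d * ev [0, a, 2 * c] ∈
    Sp fun k e => 1 ≤ k ∧ d + 2 ≤ e ∧ k + 2 * d ≤ 2 * e := by
  induction h using AddSubgroup.closure_induction with
  | mem _ h =>
    obtain ⟨k, e, h, rfl⟩ := h
    by_cases h1 : d + 2 ≤ e
    · exact ⟨0, 0, by simpa [ev] using gen (by omega)⟩
    · obtain ⟨rfl, rfl⟩ | ⟨rfl, rfl⟩ | ⟨rfl, rfl⟩ : (k = 1 ∧ e = d) ∨ (k = 1 ∧ e = d + 1) ∨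
        (k = 2 ∧ e = d + 1) := by omega
      exacts [⟨1, 0, by simp [ev]⟩, ⟨2, 0, by simp [ev, pow_succ, mul_assoc, mul_comm y]⟩,
        ⟨0, 1, by simp [ev, pow_succ, mul_assoc, mul_comm]⟩]
  | zero => exact ⟨0, 0, by simp [ev]⟩
  | add _ _ _ _ h1 h2 =>
    obtain ⟨a, c, h1⟩ := h1
    obtain ⟨a', c', h2⟩ := h2
    refine ⟨a + a', c + c', ?_⟩
    convert add_mem h1 h2 using 1
    simp [ev]; ring
  | neg _ _ h =>
    obtain ⟨a, c, h⟩ := h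
    refine ⟨-a, -c, ?_⟩
    convert neg_mem h using 1
    simp [ev]; ring

lemma cases : ∀ p : Fin 2, ∀ a : Fin 4, ∀ c : Fin 2, ∃ b < 2, ∃ b' < 2,
    ok (Ψ 2) p [0, a, 2 * c + 1] [0, 0, 4] b b' := by decide +kernel

lemma main {m : ℕ} (hm : m % 8 = 6) (j : ℕ) :
    ∃ A, Good m A ∧ A - 2 ^ (6 + 2 * j) * y ^ 2 ∈ Sp (Ψ (6 + 2 * j)) := by
  induction j with
  | zero => exact base hm
  | succ j ih =>
    obtain ⟨A, h0, hA⟩ := ih
    rw [mul_add, ← add_assoc]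
    generalize 6 + 2 * j = d at *
    obtain ⟨p, q, z, s, Q, h1, h2, h3⟩ := R_eq hm
    obtain ⟨a, c, h4⟩ := dec hA
    obtain ⟨a0, a1, rfl⟩ : ∃ a0 : Fin 4, ∃ a1, a = a0 + 4 * a1 :=
      ⟨⟨(a % 4).toNat, by omega⟩, a / 4, by simp only; omega⟩
    obtain ⟨c0, c1, rfl⟩ : ∃ c0 : Fin 2, ∃ c1, c = c0 + 2 * c1 :=
      ⟨⟨(c % 2).toNat, by omega⟩, c / 2, by simp only; omega⟩
    obtain ⟨b, hb, b', hb', h5⟩ := cases p a0 c0
    have h6 := add_mem (add_mem h4 (int_mul a1 (gen (k := 1) (e := d + 2) (by omega))))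
      (int_mul c1 (gen (k := 2) (e := d + 2) (by omega)))
    have h7 : 2 ^ d * ev [0, a0, 2 * c0 + 1] ∈ Sp fun k e => k ≤ 2 ∧ e = d := by
      convert add_mem (int_mul a0 (gen (k := 1) (e := d) _))
        (int_mul (2 * c0 + 1) (gen (k := 2) (e := d) _)) using 1
      · simp [ev]; ring
      all_goals omega
    refine ⟨_, good_step hb hb' h0, ?_⟩
    have := step (A := A) (d := d) (χ := Ψ (d + 2 * 1)) hb hb' h5 (by omega) h2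
      (U_mem hb' (U_mem (ψ := fun k e => 1 ≤ k ∧ d + 2 ≤ e ∧ d + k ≤ e) hb
        (mul (χ := fun k e => 1 ≤ k ∧ d + 2 ≤ e ∧ k + 2 * d ≤ 2 * e) (by
          convert h6 using 1; simp [ev]; ring) h3 (by omega)) (by omega)) (by omega))
      (U_mem hb' (U_mem (ψ := fun k e => 1 ≤ k ∧ d + 3 ≤ e ∧ d + k ≤ e + 1) hb
        (mul (χ := fun k e => 1 ≤ k ∧ d + 3 ≤ e ∧ k + 2 * d ≤ 2 * e + 2) h7 h1 (by omega))
        (by omega)) (by omega))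
    rwa [show 2 ^ d * ev [0, 0, 4] = 2 ^ (d + 2 * 1) * y ^ 2 by simp [ev]; ring] at this

theorem result (m : ℕ) (hm : m % 8 = 6) (B : ℕ) : ∃ n, (4 : ℤ) ^ B ∣ S 4 m n := by
  obtain ⟨A, ⟨N, r, h⟩, hA⟩ := main hm B
  obtain ⟨D, hD⟩ := (dvd_sub_left (dvd_mul_right _ _)).1 (dvd_of_mem (d := 6 + 2 * B) hA (by omega))
  have := h (r + 1) 0
  rw [mul_zero, zero_add, H_stab, hD, mul_assoc, show (2 : ℤ⟦X⟧) = C 2 from rfl, ← map_pow,
    coeff_C_mul, pow_add, pow_mul] at this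
  refine ⟨r, (?_ : _ ∣ coeff r (H m (r + 1)))⟩
  rw [this]
  exact (dvd_mul_left _ _).mul_right _

end Pool.Agent.Results.MP_53b42b_nt.Unb
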